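import Mathlib
import Pool.Graph.R_seed8.H263R2.Ultra.D
import Pool.Graph.R_seed8.Helper876.Bodies

set_option autoImplicit false

open MeasureTheory TopologicalSpace Topology Set Matrix

namespace Pool.Agent.Results.MP_02cac4_co.EveryDimension

open Pool.Agent.H263R2.Ultra
open Pool.Agent.Helper876 (cast minN IsDens Contacts)

/-- The space `C_d` of o-symmetric convex bodies: compact convex sets `K ⊆ ℝ^d` with nonempty
interior and `K = -K`, with the Hausdorff metric. -/
abbrev Body (d : ℕ) :=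
  {K : ConvexBody (EuclideanSpace ℝ (Fin d)) //
    (∀ x ∈ (K : Set (EuclideanSpace ℝ (Fin d))), -x ∈ (K : Set (EuclideanSpace ℝ (Fin d)))) ∧
      (interior (K : Set (EuclideanSpace ℝ (Fin d)))).Nonempty}

/-- The density `δ(C, L) = λ(C, L)^d V(C) / (2^d d(L))` for the lattice `L` with basis `b`:
`gauge C` is the norm `‖·‖_C`, and `d(L)` is the volume of the parallelepiped spanned by `b`. -/
noncomputable def density {d : ℕ} (C : Body d) (b : Fin d → EuclideanSpace ℝ (Fin d)) : ℝ :=
  (⨅ z : {z : Fin d → ℤ // z ≠ 0},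
      gauge (C.1 : Set (EuclideanSpace ℝ (Fin d))) (∑ i, (z.1 i : ℝ) • b i)) ^ d
    * (volume (C.1 : Set (EuclideanSpace ℝ (Fin d)))).toReal
    / (2 ^ d * (volume (parallelepiped b)).toReal)

/-- The lattice with basis `b` is maximum for `δ(C, ·)`. -/
def IsMaximum {d : ℕ} (C : Body d) (b : Fin d → EuclideanSpace ℝ (Fin d)) : Prop :=
  ∃ ε > (0 : ℝ), ∀ A : EuclideanSpace ℝ (Fin d) →L[ℝ] EuclideanSpace ℝ (Fin d),
    LinearMap.trace ℝ (EuclideanSpace ℝ (Fin d))
      (A : EuclideanSpace ℝ (Fin d) →ₗ[ℝ] EuclideanSpace ℝ (Fin d)) = 0 →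
    ‖A‖ < ε → density C (fun i => b i + A (b i)) ≤ density C b

/-- The lattice with basis `b` is ultra-maximum for `δ(C, ·)`. -/
def IsUltraMaximum {d : ℕ} (C : Body d) (b : Fin d → EuclideanSpace ℝ (Fin d)) : Prop :=
  ∃ c > (0 : ℝ), ∃ ε > (0 : ℝ),
    ∀ A : EuclideanSpace ℝ (Fin d) →L[ℝ] EuclideanSpace ℝ (Fin d),
    LinearMap.trace ℝ (EuclideanSpace ℝ (Fin d))
      (A : EuclideanSpace ℝ (Fin d) →ₗ[ℝ] EuclideanSpace ℝ (Fin d)) = 0 →
    ‖A‖ < ε → density C (fun i => b i + A (b i)) ≤ (1 - c * ‖A‖) * density C b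

/-- The lattice with basis `b` has the (globally) greatest density `δ(C, ·)` of all lattices. -/
def IsDensest {d : ℕ} (C : Body d) (b : Fin d → EuclideanSpace ℝ (Fin d)) : Prop :=
  LinearIndependent ℝ b ∧
    ∀ b' : Fin d → EuclideanSpace ℝ (Fin d), LinearIndependent ℝ b' → density C b' ≤ density C b

section

variable {d : ℕ} {g : (Fin d → ℝ) → ℝ}

/-- A nonzero traceless matrix on which all contact functionals are nonnegative. -/
lemma exists_matrix' (P : Finset (Fin d → ℝ)) (u : (Fin d → ℝ) → (Fin d → ℝ) →ₗ[ℝ] ℝ)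
    (hd : 2 ≤ d) (hc : P.card + 1 ≤ d * d) :
    ∃ M : Matrix (Fin d) (Fin d) ℝ, M ≠ 0 ∧ M.trace = 0 ∧ ∀ l ∈ P, 0 ≤ u l (M *ᵥ l) := by
  let L1 : Matrix (Fin d) (Fin d) ℝ →ₗ[ℝ] (P → ℝ) :=
    LinearMap.pi fun l => (u l.1) ∘ₗ ((Matrix.mulVecBilin ℝ ℝ).flip l.1)
  let L : Matrix (Fin d) (Fin d) ℝ →ₗ[ℝ] (P → ℝ) × ℝ := L1.prod (Matrix.traceLinearMap (Fin d) ℝ ℝ)
  by_cases hker : LinearMap.ker L = ⊥
  · have hinj : Function.Injective L := LinearMap.ker_eq_bot.mp hker
    have hle := LinearMap.finrank_le_finrank_of_injective hinj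
    have e1 : Module.finrank ℝ (Matrix (Fin d) (Fin d) ℝ) = d * d := by
      simp [Module.finrank_matrix]
    have e2 : Module.finrank ℝ ((P → ℝ) × ℝ) = P.card + 1 := by simp
    rw [e1, e2] at hle
    have heq : Module.finrank ℝ (Matrix (Fin d) (Fin d) ℝ) = Module.finrank ℝ ((P → ℝ) × ℝ) := by
      rw [e1, e2]; omega
    have hsurj : Function.Surjective L :=
      (LinearMap.injective_iff_surjective_of_finrank_eq_finrank heq).mp hinj
    obtain ⟨M, hM⟩ := hsurj (1, 0)
    have hPne : P.Nonempty := by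
      rw [Finset.nonempty_iff_ne_empty]
      rintro rfl
      simp at hle
      nlinarith
    obtain ⟨l₀, hl₀⟩ := hPne
    refine ⟨M, ?_, ?_, ?_⟩
    · rintro rfl
      rw [map_zero] at hM
      have h1 := congrFun (congrArg Prod.fst hM) ⟨l₀, hl₀⟩
      simp at h1
    · have := congrArg Prod.snd hM
      simpa [L] using this
    · intro l hl
      have h1 := congrArg Prod.fst hM
      have h2 := congrFun h1 ⟨l, hl⟩
      have h3 : u l (M *ᵥ l) = 1 := by simpa [L, L1] using h2
      rw [h3]; exact zero_le_one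
  · obtain ⟨M, hM, hM0⟩ := (Submodule.ne_bot_iff _).mp hker
    have hL : L M = 0 := hM
    refine ⟨M, hM0, ?_, ?_⟩
    · have := congrArg Prod.snd hL
      simpa [L] using this
    · intro l hl
      have h1 := congrArg Prod.fst hL
      have h2 := congrFun h1 ⟨l, hl⟩
      have h3 : u l (M *ᵥ l) = 0 := by simpa [L, L1] using h2
      rw [h3]

/-- With at most `d (d + 1)` contacts, the density cannot drop linearly in every traceless
direction. This covers `d = 2` as well. -/
lemma not_ultra' (h : NL g) (hd : 2 ≤ d) {B : Matrix (Fin d) (Fin d) ℝ} (hB : B.det ≠ 0)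
    (hcard : (Contacts g B).encard ≤ (d * (d + 1) : ℕ)) :
    ∃ M : Matrix (Fin d) (Fin d) ℝ, M ≠ 0 ∧ M.trace = 0 ∧ ∀ a : ℝ, 0 < a →
      ∃ t₀ : ℝ, 0 < t₀ ∧ ∀ t : ℝ, 0 < t → t < t₀ →
        ¬ (minN g ((1 + t • M) * B) ^ d / |((1 + t • M) * B).det| ≤
          (1 - a * t) * (minN g B ^ d / |B.det|)) := by
  classical
  have hd1 : 1 ≤ d := by omega
  obtain ⟨hlam, η, hη, hgap⟩ := h.gap hd1 hB
  set lam := minN g B with hlamdef
  have hfin : (Contacts g B).Finite := by
    apply Set.finite_of_encard_le_coe (k := d * (d + 1)) hcard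
  have hsym : ∀ x ∈ Contacts g B, -x ∈ Contacts g B := by
    rintro x ⟨⟨z, rfl⟩, hx⟩
    refine ⟨⟨-z, ?_⟩, by rw [h.neg]; exact hx⟩
    rw [← Matrix.mulVec_neg]
    congr 1
    funext i
    simp [Pool.Agent.Helper876.cast]
  obtain ⟨P, hPT, hPc, hPall⟩ := half_card hfin hsym hcard
  choose u hu1 hu2 using h.support
  obtain ⟨M, hM0, hMtr, hMu⟩ := exists_matrix' P u hd (by nlinarith)
  refine ⟨M, hM0, hMtr, fun a ha => ?_⟩
  obtain ⟨K, hK, hdet⟩ := det_bound M hMtr
  -- norm control
  obtain ⟨κ, hκ, hl⟩ := h.lower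
  obtain ⟨U, hU, hup⟩ := h.upper
  obtain ⟨N, hN0, hN⟩ : ∃ N : ℝ, 0 < N ∧ ∀ x : Fin d → ℝ, ‖M *ᵥ x‖ ≤ N * ‖x‖ := by
    let L := LinearMap.toContinuousLinearMap (Matrix.mulVecLin M)
    refine ⟨‖L‖ + 1, by positivity, fun x => (L.le_opNorm x).trans ?_⟩
    gcongr; linarith
  set C := U * N / κ with hCdef
  have hC : 0 < C := by positivity
  have hMg : ∀ x : Fin d → ℝ, g (M *ᵥ x) ≤ C * g x := by
    intro x
    calc g (M *ᵥ x) ≤ U * ‖M *ᵥ x‖ := hup _
      _ ≤ U * (N * ‖x‖) := by gcongr; exact hN x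
      _ = C * (κ * ‖x‖) := by rw [hCdef]; field_simp
      _ ≤ C * g x := by gcongr; exact hl x
  -- the threshold
  set t₀ := min 1 (min (a / K) (η / ((1 + η) * C))) with ht₀
  refine ⟨t₀, by positivity, fun t ht0 htt hcon => ?_⟩
  have ht1 : t < 1 := lt_of_lt_of_le htt (min_le_left _ _)
  have ht2 : t < a / K := lt_of_lt_of_le htt ((min_le_right _ _).trans (min_le_left _ _))
  have ht3 : t < η / ((1 + η) * C) :=
    lt_of_lt_of_le htt ((min_le_right _ _).trans (min_le_right _ _))
  have ht2' : K * t < a := by rw [lt_div_iff₀ hK] at ht2; linarith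
  have ht3' : t * ((1 + η) * C) < η := by rwa [lt_div_iff₀ (by positivity)] at ht3
  -- the minimum does not decrease
  have hmin : lam ≤ minN g ((1 + t • M) * B) := by
    have := nonempty_nz hd1
    unfold minN
    refine le_ciInf fun ⟨z, hz⟩ => ?_
    show lam ≤ g (((1 + t • M) * B) *ᵥ cast z)
    set l := B *ᵥ (cast z : Fin d → ℝ) with hldef
    have e1 : ((1 + t • M) * B) *ᵥ cast z = l + t • (M *ᵥ l) := by
      rw [← Matrix.mulVec_mulVec, Matrix.add_mulVec, Matrix.one_mulVec, Matrix.smul_mulVec]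
    rw [e1]
    rcases hgap z hz with hz1 | hz1
    · have hlT : l ∈ Contacts g B := ⟨⟨z, rfl⟩, hz1⟩
      have hl0 : l ≠ 0 := mulVec_ne hB (cast_ne hz)
      rcases hPall l hlT hl0 with hP | hP
      · have h1 := hu2 l (l + t • (M *ᵥ l))
        rw [map_add, map_smul, hu1, smul_eq_mul] at h1
        have h2 := mul_nonneg ht0.le (hMu l hP)
        have : g l = lam := hz1
        linarith
      · have h1 := hu2 (-l) (-(l + t • (M *ᵥ l)))
        have e2 : -(l + t • (M *ᵥ l)) = (-l) + t • (M *ᵥ (-l)) := by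
          rw [Matrix.mulVec_neg, smul_neg, neg_add]
        rw [h.neg] at h1
        rw [e2, map_add, map_smul, hu1, smul_eq_mul, h.neg] at h1
        have h2 := mul_nonneg ht0.le (hMu (-l) hP)
        have : g l = lam := hz1
        linarith
    · have h1 : g l ≤ g (l + t • (M *ᵥ l)) + t * (C * g l) := by
        have e3 : l = (l + t • (M *ᵥ l)) + -(t • (M *ᵥ l)) := by abel
        calc g l = g ((l + t • (M *ᵥ l)) + -(t • (M *ᵥ l))) := by rw [← e3]
          _ ≤ g (l + t • (M *ᵥ l)) + g (-(t • (M *ᵥ l))) := h.add _ _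
          _ = g (l + t • (M *ᵥ l)) + t * g (M *ᵥ l) := by rw [h.neg, h.hom _ _ ht0.le]
          _ ≤ _ := by gcongr; exact hMg l
      have h2 : (1 + η) * lam ≤ g l := hz1
      have hgl : 0 ≤ g l := h.nonneg l
      have h3 : lam ≤ (1 - t * C) * g l := by
        have h4 : 0 < 1 - t * C := by
          have : t * C ≤ t * ((1 + η) * C) := by
            have : 0 ≤ t * (η * C) := by positivity
            nlinarith
          nlinarith
        have h5 : 1 ≤ (1 - t * C) * (1 + η) := by nlinarith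
        calc lam = 1 * lam := (one_mul _).symm
          _ ≤ ((1 - t * C) * (1 + η)) * lam := by gcongr
          _ = (1 - t * C) * ((1 + η) * lam) := by ring
          _ ≤ _ := by gcongr
      linarith
  -- conclusion
  have hBpos : 0 < |B.det| := abs_pos.mpr hB
  rw [Matrix.det_mul, abs_mul] at hcon
  set D := |(1 + t • M).det| with hD
  have hDle : D ≤ 1 + K * t ^ 2 := hdet t ht0.le ht1.le
  have hlampow : 0 < lam ^ d := by positivity
  rcases (abs_nonneg (1 + t • M).det).eq_or_lt with hD0 | hD0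
  · have hdet0 : (1 + t • M).det = 0 := by
      have := hD0.symm
      exact abs_eq_zero.mp this
    have : ∃ x : Fin d → ℝ, x ≠ 0 ∧ (1 + t • M) *ᵥ x = 0 := by
      obtain ⟨x, hx, hx'⟩ := Matrix.exists_mulVec_eq_zero_iff.mpr hdet0
      exact ⟨x, hx, hx'⟩
    obtain ⟨x, hx, hx'⟩ := this
    have e1 : x = -(t • (M *ᵥ x)) := by
      rw [Matrix.add_mulVec, Matrix.one_mulVec, Matrix.smul_mulVec] at hx'
      exact eq_neg_of_add_eq_zero_left hx'
    have h1 : g x ≤ t * (C * g x) := by
      calc g x = g (-(t • (M *ᵥ x))) := by rw [← e1]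
        _ = t * g (M *ᵥ x) := by rw [h.neg, h.hom _ _ ht0.le]
        _ ≤ _ := by gcongr; exact hMg x
    have h2 := h.pos hx
    have h3 : t * C < 1 := by
      have : t * C ≤ t * ((1 + η) * C) := by
        have : 0 ≤ t * (η * C) := by positivity
        nlinarith
      have h4 : t * C * (1 + η) < η := by linarith
      nlinarith [mul_pos ht0 hC]
    nlinarith
  · have hDpos : 0 < D := hD0
    have h1 : lam ^ d / (D * |B.det|) ≤ (1 - a * t) * (lam ^ d / |B.det|) := by
      refine le_trans ?_ hcon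
      gcongr
    have h2 : 1 ≤ (1 - a * t) * D := by
      have e : lam ^ d / (D * |B.det|) = (lam ^ d / |B.det|) * (1 / D) := by field_simp
      rw [e] at h1
      have hq : 0 < lam ^ d / |B.det| := by positivity
      have h3 : 1 / D ≤ 1 - a * t := by
        by_contra hc
        push Not at hc
        have := mul_lt_mul_of_pos_left hc hq
        linarith
      calc (1 : ℝ) = 1 / D * D := by field_simp
        _ ≤ (1 - a * t) * D := by gcongr
    have h4 : 0 < 1 - a * t := by
      by_contra hc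
      push Not at hc
      have : (1 - a * t) * D ≤ 0 := mul_nonpos_of_nonpos_of_nonneg hc hDpos.le
      linarith
    have h5 : 1 ≤ (1 - a * t) * (1 + K * t ^ 2) := h2.trans (by gcongr)
    have h6 : 0 < a * t * (K * t ^ 2) := by positivity
    have h7 : K * t ^ 2 < a * t := by
      have : K * t ^ 2 = (K * t) * t := by ring
      rw [this]; gcongr
    nlinarith

lemma det_Bm_ne {b : Fin d → E d} (hb : LinearIndependent ℝ b) : (Bm b).det ≠ 0 := by
  intro h
  obtain ⟨x, hx, hx'⟩ := Matrix.exists_mulVec_eq_zero_iff.mpr h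
  apply hx
  rw [Fintype.linearIndependent_iff] at hb
  funext i
  refine hb x ?_ i
  ext k
  have h1 := congrFun hx' k
  simp only [Matrix.mulVec, dotProduct, Pi.zero_apply, Bm, Matrix.of_apply] at h1
  simp only [WithLp.ofLp_sum, Finset.sum_apply, PiLp.smul_apply, smul_eq_mul, PiLp.zero_apply]
  rw [← h1]
  exact Finset.sum_congr rfl fun i _ => mul_comm _ _

/-- forget the interior condition -/
def toX (C : Body d) : X d := ⟨C.1, C.2.1⟩

lemma isometry_toX : Isometry (toX : Body d → X d) := fun _ _ => rfl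

lemma density_eq (C : Body d) (b : Fin d → E d) :
    density C b = (minN (gg (toX C)) (Bm b) ^ d / |(Bm b).det|) *
      ((volume (C.1 : Set (E d))).toReal / 2 ^ d) := by
  unfold density
  have e1 := inf_eq (toX C) b
  have e0 : (⨅ z : {z : Fin d → ℤ // z ≠ 0},
      gauge (C.1 : Set (E d)) (∑ i, (z.1 i : ℝ) • b i)) = minN (gg (toX C)) (Bm b) := e1
  rw [e0, vol_par, mul_comm (2 ^ d : ℝ), mul_div_mul_comm]

lemma vol_pos (C : Body d) : 0 < (volume (C.1 : Set (E d))).toReal := by
  refine ENNReal.toReal_pos ?_ C.1.isCompact.measure_lt_top.ne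
  have h := isOpen_interior.measure_pos volume C.2.2
  exact (lt_of_lt_of_le h (measure_mono interior_subset)).ne'

end

/-- **Every dimension.** For every `d ≥ 2` there is a nonempty open set `U` in the space of
o-symmetric convex bodies such that every body `C` in `U` has a lattice of greatest density, and
each lattice of greatest density is maximum but not ultra-maximum. In particular, for every
`d ≥ 2` the set of bodies with a maximum lattice that is not ultra-maximum is not meager. -/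
theorem result (d : ℕ) (hd : 2 ≤ d) :
    (∃ U : Set (Body d), IsOpen U ∧ U.Nonempty ∧ ∀ C ∈ U,
      (∃ b, IsDensest C b) ∧ ∀ b, IsDensest C b → IsMaximum C b ∧ ¬ IsUltraMaximum C b) ∧
    ¬ IsMeagre {C : Body d | ∃ b : Fin d → EuclideanSpace ℝ (Fin d),
      LinearIndependent ℝ b ∧ IsMaximum C b ∧ ¬ IsUltraMaximum C b} := by
  classical
  obtain ⟨X₀, δ, hδ, hX₀⟩ := exists_open d hd
  have hX0nh := (hX₀ X₀ (by rw [dist_self]; exact hδ)).1
  have key : ∃ U : Set (Body d), IsOpen U ∧ U.Nonempty ∧ ∀ C ∈ U,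
      (∃ b, IsDensest C b) ∧ ∀ b, IsDensest C b → IsMaximum C b ∧ ¬ IsUltraMaximum C b := by
    refine ⟨{C : Body d | dist X₀ (toX C) < δ}, ?_, ?_, ?_⟩
    · exact isOpen_lt (continuous_const.dist isometry_toX.continuous) continuous_const
    · exact ⟨⟨X₀.1, X₀.2, ⟨0, mem_interior_iff_mem_nhds.mpr hX0nh⟩⟩, by
        show dist X₀ (toX _) < δ
        have : (toX ⟨X₀.1, X₀.2, ⟨0, mem_interior_iff_mem_nhds.mpr hX0nh⟩⟩ : X d) = X₀ := rfl
        rw [this, dist_self]; exact hδ⟩
    intro C hC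
    obtain ⟨hnh, ⟨B, hB⟩, hcont⟩ := hX₀ (toX C) hC
    have hNL := nl_gg (toX C) hnh
    have hVpos := vol_pos C
    have hq : 0 < (volume (C.1 : Set (E d))).toReal / 2 ^ d := by positivity
    refine ⟨⟨col B, linInd_col hB.1, ?_⟩, ?_⟩
    · intro b' hb'
      rw [density_eq, density_eq, Bm_col]
      have h1 := hB.2 _ (det_Bm_ne hb')
      gcongr
    intro b hb
    have hdet := det_Bm_ne hb.1
    have hdens : IsDens (gg (toX C)) (Bm b) := by
      refine ⟨hdet, fun B' hB' => ?_⟩
      have h1 := hb.2 (col B') (linInd_col hB')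
      rw [density_eq, density_eq, Bm_col] at h1
      exact le_of_mul_le_mul_right h1 hq
    have hBpos : 0 < |(Bm b).det| := abs_pos.mpr hdet
    constructor
    · refine ⟨1, one_pos, fun A _ hA => ?_⟩
      rw [density_eq, density_eq, Bm_add]
      have hdet' : ((1 + mat A) * Bm b).det ≠ 0 := by
        rw [Matrix.det_mul]; exact mul_ne_zero (det_ne A hA) hdet
      have h1 := hdens.2 _ hdet'
      gcongr
    · rintro ⟨c, hc, ε, hε, hult⟩
      obtain ⟨M, hM0, hMtr, hM⟩ := not_ultra' hNL hd hdet (hcont _ hdens)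
      have hMn : 0 < ‖ofMat M‖ := by
        rw [norm_pos_iff]
        intro h0
        apply hM0
        rw [← mat_ofMat M, h0]
        simp [mat]
      obtain ⟨t₀, ht₀, hneg⟩ := hM (c * ‖ofMat M‖) (by positivity)
      set t : ℝ := min (t₀ / 2) (ε / (2 * ‖ofMat M‖)) with ht
      have htpos : 0 < t := by positivity
      have ht1 : t < t₀ := lt_of_le_of_lt (min_le_left _ _) (by linarith)
      have ht2 : t * ‖ofMat M‖ < ε := by
        have : t ≤ ε / (2 * ‖ofMat M‖) := min_le_right _ _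
        calc t * ‖ofMat M‖
            ≤ ε / (2 * ‖ofMat M‖) * ‖ofMat M‖ := by gcongr
          _ = ε / 2 := by field_simp
          _ < ε := by linarith
      apply hneg t htpos ht1
      have hnorm : ‖ofMat (t • M)‖ = t * ‖ofMat M‖ := by
        rw [ofMat_smul, norm_smul, Real.norm_of_nonneg htpos.le]
      have h2 := hult (ofMat (t • M)) (by
        rw [mat_trace, mat_ofMat, Matrix.trace_smul, hMtr, smul_zero]) (by rw [hnorm]; exact ht2)
      rw [density_eq, density_eq, Bm_add, mat_ofMat, hnorm, ← mul_assoc] at h2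
      have h3 := le_of_mul_le_mul_right h2 hq
      have e3 : c * (t * ‖ofMat M‖) = c * ‖ofMat M‖ * t := by ring
      rw [e3] at h3
      exact h3
  refine ⟨key, ?_⟩
  obtain ⟨U, hUo, hUne, hU⟩ := key
  intro hme
  have hsub : U ⊆ {C : Body d | ∃ b : Fin d → EuclideanSpace ℝ (Fin d),
      LinearIndependent ℝ b ∧ IsMaximum C b ∧ ¬ IsUltraMaximum C b} := by
    intro C hC
    obtain ⟨⟨b, hb⟩, h2⟩ := hU C hC
    exact ⟨b, hb.1, h2 b hb⟩
  have hUm : IsMeagre U := hme.mono hsub
  have hdense : Dense Uᶜ := dense_of_mem_residual hUm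
  obtain ⟨C, hC, hC'⟩ := hdense.inter_open_nonempty U hUo hUne
  exact hC' hC

end Pool.Agent.Results.MP_02cac4_co.EveryDimension
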